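import Pool.Agent.Helper53.UR.Tree

/-!
# PROJECT UR (MP_c578c8_lc): packet UR-DGS
-/

namespace Pool.Agent.Helper4.UR

open Pool.Agent.Helper53.UR
open Pool.Agent.Helper65.LinSpace (dig tab nrec nrec_succ tab_lt tab_succ tab_zero dig_tab)
open Pool.Agent.Helper65.BR (Mach)

theorem conf_lt (m : Mach) (hm : m.Ok) (t : ℕ) :
    (m.conf t).1 < 2 ^ m.s ∧ ∀ x, (m.conf t).2 x < 2 ^ m.a := by
  cases t with
  | zero => exact ⟨hm.hq0, hm.hM0⟩
  | succ t => exact ⟨hm.hN _ _, fun x => hm.hW _ _ _ _⟩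

/-- Packet UR-DGS. -/
theorem gDGS : GoalDGS := by
  intro m hm B j t'
  obtain ⟨v, hv⟩ : ∃ v : ℕ → ℕ, v = fun r =>
    (m.conf (j * B + r)).2 (m.A (m.conf (j * B + r)).1) := ⟨_, rfl⟩
  have hvl : ∀ r, v r < 2 ^ m.a := fun r => by
    rw [hv]
    exact (conf_lt m hm _).2 _
  have hZ : ∀ t, ZD m B j t = (m.conf (j * B)).1 + 2 ^ m.s * tab (2 ^ m.a) t v := fun t => by
    rw [hv]
    rfl
  have hs := (conf_lt m hm (j * B)).1
  have hpos : 0 < 2 ^ m.s := Nat.two_pow_pos _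
  have hmod : ZD m B j t' % 2 ^ m.s = (m.conf (j * B)).1 := by
    rw [hZ, Nat.add_mul_mod_self_left, Nat.mod_eq_of_lt hs]
  have hdiv : ZD m B j t' / 2 ^ m.s = tab (2 ^ m.a) t' v := by
    rw [hZ, Nat.add_mul_div_left _ _ hpos, Nat.div_eq_of_lt hs, Nat.zero_add]
  have hvz : ∀ t < t', vz m (ZD m B j t') t = v t := fun t ht => by
    unfold vz
    rw [hdiv]
    exact dig_tab (fun i _ => hvl i) ht
  refine ⟨?_, ?_, ?_, ?_⟩
  · rw [hZ, pow_add, pow_mul]
    have h1 : tab (2 ^ m.a) t' v < (2 ^ m.a) ^ t' := tab_lt fun i _ => hvl i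
    calc (m.conf (j * B)).1 + 2 ^ m.s * tab (2 ^ m.a) t' v
        < 2 ^ m.s + 2 ^ m.s * tab (2 ^ m.a) t' v := Nat.add_lt_add_right hs _
      _ = 2 ^ m.s * (tab (2 ^ m.a) t' v + 1) := by ring
      _ ≤ 2 ^ m.s * (2 ^ m.a) ^ t' := Nat.mul_le_mul_left _ h1
  · rw [hZ, tab_zero, mul_zero, add_zero]
  · intro t
    induction t with
    | zero =>
      intro _
      refine ⟨?_, fun x => rfl⟩
      show ZD m B j t' % 2 ^ m.s = (m.conf (j * B)).1
      exact hmod
    | succ t ih =>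
      intro ht
      obtain ⟨ih1, ih2⟩ := ih (by omega)
      have hz := hvz t (by omega)
      have e1 : st m (ZD m B j t') (t + 1) =
          m.N (st m (ZD m B j t') t) (vz m (ZD m B j t') t) := by
        unfold st
        rw [nrec_succ]
      refine ⟨?_, fun x => ?_⟩
      · rw [e1, ih1, hz, hv]
        rfl
      · have e2 : ct m (ZD m B j t') x ((m.conf (j * B)).2 x) (t + 1) =
            m.W (st m (ZD m B j t') t) (vz m (ZD m B j t') t) x
              (ct m (ZD m B j t') x ((m.conf (j * B)).2 x) t) := by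
          unfold ct
          rw [nrec_succ]
        rw [e2, ih1, ih2 x, hz, hv]
        rfl
  · rw [hZ, hZ, tab_succ, pow_add, pow_mul, hv]
    ring

end Pool.Agent.Helper4.UR
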