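import Pool.Agent.Helper53.UR.Goals
import Pool.Agent.Helper46.TE.MOK

/-!
# PROJECT UR (MP_c578c8_lc): packet UR-GEN
-/

namespace Pool.Agent.Helper4.UR

open Pool.Agent.Helper53.UR
open Pool.Agent.Helper1.TE (NTM USPACE NUnamb NumMach)
open Pool.Agent.Helper65.LinSpace (dig nrec ifz eq01 le01 lt01 Ctx LS num)
open Pool.Agent.Helper46.TE (enc_nat_zero enc_prod_zero)

theorem enc_zb {β : Type} [Ctx β] (i : ℕ) : Ctx.enc (zb : β) i = 0 := by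
  unfold zb
  rw [Ctx.enc_dec]
  unfold Pool.Agent.Helper65.LinSpace.cut
  split_ifs <;> rfl

theorem enc_start {β : Type} [Ctx β] (M : UM β) (i : ℕ) : Ctx.enc M.mach.start i = 0 := by
  have h0 : ∀ j, Ctx.enc (0 : ℕ) j = 0 := enc_nat_zero
  have h2 : ∀ j, Ctx.enc ((0 : ℕ), (0 : ℕ)) j = 0 := enc_prod_zero _ h0 h0
  have h3 : ∀ j, Ctx.enc ((0 : ℕ), (0 : ℕ), (0 : ℕ)) j = 0 := enc_prod_zero _ h0 h2
  have h4 : ∀ j, Ctx.enc ((0 : ℕ), (0 : ℕ), (0 : ℕ), (0 : ℕ)) j = 0 := enc_prod_zero _ h0 h3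
  have h5 : ∀ j, Ctx.enc ((0 : ℕ), (0 : ℕ), (0 : ℕ), (0 : ℕ), (0 : ℕ)) j = 0 :=
    enc_prod_zero _ h0 h4
  have h6 : ∀ j, Ctx.enc ((0 : ℕ), (0 : ℕ), (0 : ℕ), (0 : ℕ), (0 : ℕ), (0 : ℕ)) j = 0 :=
    enc_prod_zero _ h0 h5
  have h7 : ∀ j, Ctx.enc ((0 : ℕ), (0 : ℕ), (0 : ℕ), (0 : ℕ), (0 : ℕ), (0 : ℕ), (0 : ℕ)) j = 0 :=
    enc_prod_zero _ h0 h6
  show Ctx.enc (((0, 0, 0), (0, 0), (0, 0, 0, 0, 0, 0, 0), (0, 0, 0), (zb : β)) : Sta β) i = 0
  exact enc_prod_zero _ h3 (enc_prod_zero _ h2 (enc_prod_zero _ h7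
    (enc_prod_zero _ h3 enc_zb))) i

theorem num_lt (w : List Bool) : num w < 2 ^ (w.length + 1) := by
  induction w with
  | nil => simp [num]
  | cons b w ih =>
    have hb : b.toNat ≤ 1 := by cases b <;> simp
    simp only [num, List.length_cons]
    rw [pow_succ 2 (w.length + 1)]
    omega

theorem enc_nat_le (x i : ℕ) : Ctx.enc x i ≤ x := by
  show Pool.Agent.Helper65.LinSpace.cons x (fun _ => 0) i ≤ x
  rcases i with _ | i
  · exact le_rfl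
  · exact Nat.zero_le _

/-- Packet UR-GEN. -/
theorem gGEN : GoalGEN := by
  intro hCOM hLS hMach hUN hBd hLSB β _ M hOk hLs Cb hCb hCbd
  obtain ⟨l1, l2, l3⟩ := hLS M hLs
  obtain ⟨k, T, c, hT⟩ := hCOM M.mach l1 l2 l3
    (fun a => by
      show eq01 a.mo 3 ≤ 1
      unfold eq01
      split_ifs <;> omega)
    (enc_start M) rfl
  obtain ⟨k1, hk1⟩ := hLSB Cb hCb
  obtain ⟨k2, hk2⟩ := hLSB M.W hLs.W
  refine ⟨k, T, ((c * (2 * k1 * k2 + 2 * k2 + 2 * k1 + 5) : ℕ) : ℝ), fun w => ?_⟩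
  set n := w.length with hn
  set a1 : ℕ := (n + 2) * k1 with ha1
  set a2 : ℕ := (a1 + 2) * k2 with ha2
  set S : ℕ := (a2 + 1) + (a1 + 1) + (n + 1) with hS
  have hCw : Cb (num w) ≤ 2 ^ a1 := by
    have h1 := hk1 (num w) (num w) (enc_nat_le _)
    have h2 := num_lt w
    rw [← hn] at h2
    have h3 : num w + 2 ≤ 2 ^ (n + 2) := by
      have : 2 ≤ 2 ^ (n + 1) := by
        calc 2 = 2 ^ 1 := rfl
          _ ≤ 2 ^ (n + 1) := Nat.pow_le_pow_right (by norm_num) (by omega)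
      rw [pow_succ 2 (n + 1)]
      omega
    calc Cb (num w) ≤ (num w + 2) ^ k1 := h1
      _ ≤ (2 ^ (n + 2)) ^ k1 := Nat.pow_le_pow_left h3 _
      _ = 2 ^ a1 := by rw [ha1, pow_mul]
  have hb : ∀ a, M.mach.Reach w a → ∀ i, Ctx.enc a i < 2 ^ S := by
    intro a ha
    refine hBd M hOk w (2 ^ S) (Nat.pow_le_pow_right (by norm_num) (by omega)) ?_ a
      ((hMach M hOk w).1 a ha)
    intro j hj
    have e1 : ∀ i, Ctx.enc (M.orun (num w) j) i ≤ 2 ^ a1 := fun i =>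
      (hCbd (num w) j hj i).trans hCw
    constructor
    · have h1 := hk2 (M.orun (num w) j) (2 ^ a1) e1
      have h2 : 2 ^ a1 + 2 ≤ 2 ^ (a1 + 2) := by
        have : 1 ≤ 2 ^ a1 := Nat.one_le_two_pow
        rw [pow_add]
        omega
      have h3 : M.W (M.orun (num w) j) ≤ 2 ^ a2 := by
        calc M.W (M.orun (num w) j) ≤ (2 ^ a1 + 2) ^ k2 := h1
          _ ≤ (2 ^ (a1 + 2)) ^ k2 := Nat.pow_le_pow_left h2 _
          _ = 2 ^ a2 := by rw [ha2, pow_mul]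
      calc 2 * M.W (M.orun (num w) j) ≤ 2 * 2 ^ a2 := Nat.mul_le_mul_left _ h3
        _ = 2 ^ (a2 + 1) := by rw [pow_succ]; ring
        _ ≤ 2 ^ S := Nat.pow_le_pow_right (by norm_num) (by omega)
    · intro i
      calc Ctx.enc (M.orun (num w) j) i ≤ 2 ^ a1 := e1 i
        _ < 2 ^ (a1 + 1) := Nat.pow_lt_pow_right (by norm_num) (by omega)
        _ ≤ 2 ^ S := Nat.pow_le_pow_right (by norm_num) (by omega)
  obtain ⟨hacc, hwi, hun⟩ := hT w S hb (hUN M hOk w)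
  refine ⟨?_, ?_, hun⟩
  · rw [hacc, (hMach M hOk w).2]
  · intro x hx i
    refine (hwi x hx i).trans ?_
    have h1 : S + 1 ≤ (2 * k1 * k2 + 2 * k2 + 2 * k1 + 5) * (n + 1) := by
      have h2 : a1 ≤ 2 * k1 * (n + 1) := by
        rw [ha1]
        nlinarith [Nat.zero_le (n * k1)]
      have h3 : a2 ≤ (2 * k1 * k2 + 2 * k2) * (n + 1) := by
        calc a2 = (a1 + 2) * k2 := ha2
          _ ≤ (2 * k1 * (n + 1) + 2 * (n + 1)) * k2 :=
            Nat.mul_le_mul_right _ (add_le_add h2 (by omega))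
          _ = (2 * k1 * k2 + 2 * k2) * (n + 1) := by ring
      calc S + 1 = a2 + a1 + n + 4 := by rw [hS]; ring
        _ ≤ (2 * k1 * k2 + 2 * k2) * (n + 1) + 2 * k1 * (n + 1) + 5 * (n + 1) := by
          have := add_le_add h3 h2
          omega
        _ = (2 * k1 * k2 + 2 * k2 + 2 * k1 + 5) * (n + 1) := by ring
    have h2 : c * (S + 1) ≤ c * (2 * k1 * k2 + 2 * k2 + 2 * k1 + 5) * (n + 1) := by
      rw [mul_assoc]
      exact Nat.mul_le_mul_left _ h1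
    calc ((c * (S + 1) : ℕ) : ℝ) ≤
          ((c * (2 * k1 * k2 + 2 * k2 + 2 * k1 + 5) * (n + 1) : ℕ) : ℝ) := by exact_mod_cast h2
      _ = ((c * (2 * k1 * k2 + 2 * k2 + 2 * k1 + 5) : ℕ) : ℝ) * ((w.length : ℝ) + 1) := by
        rw [← hn]
        push_cast
        ring

end Pool.Agent.Helper4.UR
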